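import Pool.Agent.H.MP_295d35_al.C

set_option autoImplicit false

namespace Pool.Agent.Results.MP_1dd8f3_al.Infinite

/-- the monoid generated by the `g i`, as a set of integers -/
def sg {e : ℕ} (g : Fin e → ℕ) : Set ℤ := (↑) '' (AddSubmonoid.closure (Set.range g) : Set ℕ)

theorem result (k : Type) [Field k] (e : ℕ) (he : 8 ≤ e) (B : ℕ) :
    ∃ (g : Fin e → ℕ) (F : ℤ), StrictMono g ∧
      (∀ j, g j ∉ AddSubmonoid.closure (g '' {l | l ≠ j})) ∧
      ((AddSubmonoid.closure (Set.range g) : Set ℕ)ᶜ).Finite ∧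
      IsGreatest (sg g)ᶜ F ∧ (∀ x ∉ sg g, F - x ∈ sg g) ∧
      B < (RingHom.ker (MvPolynomial.aeval (R := k)
        (fun i : Fin e => (Polynomial.X : Polynomial k) ^ g i))).spanFinrank := by
  obtain ⟨a, hm, ha⟩ := Pool.Agent.Bres.goodM e he B
  obtain ⟨F, hF, hF1, hF2⟩ := ha.big
  have hs : ∀ z, z ∈ sg a ↔ Pool.Agent.Bres.Mem a z := Pool.Agent.Bres.mem_image a
  refine ⟨a, F, hm, ha.notmem, ha.cofin, ⟨fun h => hF1 ((hs F).1 h), fun z hz => ?_⟩,
    fun x hx => ?_, ?_⟩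
  · by_contra h
    exact hz ((hs z).2 (hF2 z (by omega)))
  · rw [hs] at hx ⊢
    by_contra h
    exact hx ((hF x).2 h)
  · obtain ⟨Z, hZ, hZ'⟩ := ha.disc
    obtain ⟨G, hG, hG'⟩ := Submodule.FG.exists_span_finset_card_eq_spanFinrank
      (IsNoetherian.noetherian (RingHom.ker (MvPolynomial.aeval (R := k)
        (fun i : Fin e => (Polynomial.X : Polynomial k) ^ a i))))
    have := Pool.Agent.Bres.card_le_poly a ha.pos Z (fun z hz => (hZ' z hz).disc) G hG'
    omega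

end Pool.Agent.Results.MP_1dd8f3_al.Infinite
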